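import Pool.Agent.Helper68_Leo4.Basic

/-!
# Module CBE of PAPER_LEO4: elements of `O` all of whose multiplicities are divisible by 3
-/

set_option autoImplicit false

open NumberField IsDedekindDomain Module Filter Topology
open Pool.Agent.Leo4

namespace Pool.Agent.Leo4.H39

theorem cbe (h : OkrStmt) : CbeStmt := by
  have : IsPrincipalIdealRing O := h.2.1
  suffices H : ∀ n : ℕ, ∀ x : O, (nm x).natAbs = n → x ≠ 0 →
      (∀ p : O, Prime p → 3 ∣ multiplicity p x) → ∃ u y : O, IsUnit u ∧ x = u * y ^ 3 from
    fun x hx hp => H _ x rfl hx hp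
  intro n
  induction n using Nat.strong_induction_on with
  | _ n ih =>
    intro x hn hx hp
    by_cases hu : IsUnit x
    · exact ⟨x, 1, hu, by ring⟩
    · obtain ⟨p, hpi, hpx⟩ := WfDvdMonoid.exists_irreducible_factor hu hx
      have hpp : Prime p := hpi.prime
      have hfin : FiniteMultiplicity p x := FiniteMultiplicity.of_prime_left hpp hx
      have h1 : 1 ≤ multiplicity p x := by
        rw [← hfin.pow_dvd_iff_le_multiplicity, pow_one]
        exact hpx
      obtain ⟨e, he⟩ := hp p hpp
      have h3 : p ^ 3 ∣ x := pow_dvd_of_le_multiplicity (by omega)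
      obtain ⟨x', hx'⟩ := h3
      have hx'0 : x' ≠ 0 := by
        rintro rfl
        rw [mul_zero] at hx'
        exact hx hx'
      have hnp : 2 ≤ (nm p).natAbs := by
        have h4 : (nm p).natAbs ≠ 0 := by
          rw [Int.natAbs_ne_zero]
          exact nm_ne_zero hpp.ne_zero
        have h5 : (nm p).natAbs ≠ 1 := by
          intro h6
          apply hpp.not_isUnit
          rw [isUnit_iff_nm]
          exact Int.natAbs_eq_natAbs_iff.mp h6
        omega
      have hnx : (nm x).natAbs = (nm p).natAbs ^ 3 * (nm x').natAbs := by
        rw [hx', nm_mul, nm_pow, Int.natAbs_mul, Int.natAbs_pow]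
      have hn' : 0 < (nm x').natAbs := by
        have : (nm x').natAbs ≠ 0 := by
          rw [Int.natAbs_ne_zero]
          exact nm_ne_zero hx'0
        omega
      have hlt : (nm x').natAbs < n := by
        rw [← hn, hnx]
        have h7 : 2 ≤ (nm p).natAbs ^ 3 := hnp.trans (Nat.le_self_pow (by norm_num) _)
        nlinarith
      obtain ⟨u, y, hu, hy⟩ := ih _ hlt x' rfl hx'0 (by
        intro q hq
        have h8 : multiplicity q x = multiplicity q (p ^ 3) + multiplicity q x' := by
          rw [hx']
          exact multiplicity_mul hq (by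
            rw [← hx']
            exact FiniteMultiplicity.of_prime_left hq hx)
        have h9 : multiplicity q (p ^ 3) = 3 * multiplicity q p :=
          (FiniteMultiplicity.of_prime_left hq hpp.ne_zero).multiplicity_pow hq
        have h10 := hp q hq
        rw [h8, h9] at h10
        exact (Nat.dvd_add_right (dvd_mul_right 3 _)).mp h10)
      exact ⟨u, p * y, hu, by rw [hx', hy]; ring⟩

end Pool.Agent.Leo4.H39
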