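import Pool.Agent.Helper68_Leo4.Basic

/-!
# Module CUC of PAPER_LEO4: the number of the pairs `(c, d)` for given `a, b`
-/

set_option autoImplicit false

open NumberField IsDedekindDomain Module Filter Topology
open Pool.Agent.Leo4

namespace Pool.Agent.Leo4.H39

/-- summation against a linear counting function -/
theorem layer {ι : Type} [DecidableEq ι] (q : ι → ℝ) (κ : ℝ) (hκ : 0 ≤ κ) : ∀ (m : ℕ) (T : Finset ι),
    T.card = m → (∀ c ∈ T, 0 < q c) →
    (∀ c0 ∈ T, ((T.filter (fun c => q c ≤ q c0)).card : ℝ) ≤ κ * q c0) →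
    ∑ c ∈ T, (q c) ^ (-(1 / 2) : ℝ) ≤ 2 * Real.sqrt (κ * m) := by
  intro m
  induction m with
  | zero =>
    intro T hT _ _
    rw [Finset.card_eq_zero] at hT
    rw [hT, Finset.sum_empty]
    positivity
  | succ m ih =>
    intro T hT hq h
    have hne : T.Nonempty := by
      rw [← Finset.card_pos]; omega
    obtain ⟨c0, hc0, hmax⟩ := Finset.exists_max_image T q hne
    have hfil : T.filter (fun c => q c ≤ q c0) = T := by
      apply Finset.filter_true_of_mem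
      intro c hc
      exact hmax c hc
    have h1 : ((m : ℝ) + 1) ≤ κ * q c0 := by
      have := h c0 hc0
      rw [hfil, hT] at this
      push_cast at this
      exact this
    have hq0 := hq c0 hc0
    have hκ0 : 0 < κ := by
      by_contra hk
      have : κ = 0 := le_antisymm (not_lt.mp hk) hκ
      rw [this, zero_mul] at h1
      have : (0 : ℝ) ≤ m := by positivity
      linarith
    have h2 := ih (T.erase c0) (by rw [Finset.card_erase_of_mem hc0, hT]; rfl)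
      (fun c hc => hq c (Finset.mem_of_mem_erase hc))
      (fun c1 hc1 => by
        refine le_trans ?_ (h c1 (Finset.mem_of_mem_erase hc1))
        have : ((T.erase c0).filter (fun c => q c ≤ q c1)) ⊆ (T.filter (fun c => q c ≤ q c1)) :=
          Finset.filter_subset_filter _ (Finset.erase_subset _ _)
        exact_mod_cast Finset.card_le_card this)
    rw [← Finset.add_sum_erase T _ hc0]
    obtain ⟨u, hu⟩ : ∃ u, u = Real.sqrt (κ * ((m + 1 : ℕ) : ℝ)) := ⟨_, rfl⟩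
    obtain ⟨v, hv⟩ : ∃ v, v = Real.sqrt (κ * (m : ℝ)) := ⟨_, rfl⟩
    rw [← hu]
    rw [← hv] at h2
    have hu2 : u ^ 2 = κ * (m + 1) := by
      rw [hu, Real.sq_sqrt (by positivity)]; push_cast; rfl
    have hv2 : v ^ 2 = κ * m := by
      rw [hv, Real.sq_sqrt (by positivity)]
    have hu0 : 0 < u := by
      rw [hu]
      apply Real.sqrt_pos.mpr
      positivity
    have hv0 : 0 ≤ v := by rw [hv]; exact Real.sqrt_nonneg _
    have hvu : v ≤ u := by
      rw [hu, hv]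
      apply Real.sqrt_le_sqrt
      push_cast
      nlinarith
    obtain ⟨s, hs⟩ : ∃ s, s = Real.sqrt (q c0) := ⟨_, rfl⟩
    have hs2 : s ^ 2 = q c0 := by rw [hs, Real.sq_sqrt hq0.le]
    have hs0 : 0 < s := by rw [hs]; exact Real.sqrt_pos.mpr hq0
    have h3 : (q c0) ^ (-(1 / 2) : ℝ) = s⁻¹ := by
      rw [Real.rpow_neg hq0.le, hs, Real.sqrt_eq_rpow]
    rw [h3]
    have h4 : u ≤ κ * s := by
      apply le_of_sq_le_sq _ (by positivity)
      rw [mul_pow, hu2, hs2]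
      nlinarith
    have h5 : κ ≤ 2 * (u - v) * u := by nlinarith
    have h6 : s⁻¹ ≤ 2 * (u - v) := by
      rw [inv_le_iff_one_le_mul₀ hs0]
      have h7 : κ * 1 ≤ κ * (s * (2 * (u - v))) := by
        calc κ * 1 = κ := mul_one _
          _ ≤ 2 * (u - v) * u := h5
          _ ≤ 2 * (u - v) * (κ * s) := mul_le_mul_of_nonneg_left h4 (by linarith)
          _ = _ := by ring
      have := le_of_mul_le_mul_left h7 hκ0
      linarith
    linarith

theorem identity {R : Type} [CommRing R] (a b c d : R) :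
    (2 * b ^ 3 - 3 * a * b * c + a ^ 2 * d) ^ 2 +
      a ^ 2 * (4 * (b ^ 2 - a * c) * (c ^ 2 - b * d) - (b * c - a * d) ^ 2) =
    4 * (b ^ 2 - a * c) ^ 3 := by ring

/-- the facts used -/
theorem facts {t : ℝ} (ht : 1 ≤ t) {a b c d : O} (hN : Nrm (t ^ 8) (a, b, c, d)) :
    0 < e1 (fP a b c) ∧ 0 < e2 (fP a b c) ∧ (0 : ℝ) < nm (fP a b c) ∧
      (nm (fP a b c) : ℝ) ≤ t ^ 4 / 2 ∧ (nm a : ℝ) ^ 2 ≤ 4 * nm (fP a b c) ∧
      e1 (fP a b c) ^ 2 ≤ g ^ 2 * nm (fP a b c) ∧ e2 (fP a b c) ^ 2 ≤ g ^ 2 * nm (fP a b c) := by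
  have p1 : 0 < e1 (fP a b c) := hN.ppos1
  have p2 : 0 < e2 (fP a b c) := hN.ppos2
  have m1 : 0 < e1 (fM a b c d) := hN.mpos1
  have m2 : 0 < e2 (fM a b c d) := hN.mpos2
  have hb := hN.pbal
  have hsm := hN.small
  have hle := hN.mle
  simp only at hb hsm hle
  have hid : fX a b c d ^ 2 + a ^ 2 * fM a b c d = 4 * fP a b c ^ 3 := by
    unfold fX fM fP fR fQ
    exact identity a b c d
  have i1 : e1 (fX a b c d) ^ 2 + e1 a ^ 2 * e1 (fM a b c d) = 4 * e1 (fP a b c) ^ 3 := by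
    have := congrArg e1 hid
    have h4 : e1 (4 : O) = 4 := e1_ofNat 4
    rw [e1_add, e1_mul, e1_mul, e1_pow, e1_pow, e1_pow, h4] at this
    exact this
  have i2 : e2 (fX a b c d) ^ 2 + e2 a ^ 2 * e2 (fM a b c d) = 4 * e2 (fP a b c) ^ 3 := by
    have := congrArg e2 hid
    have h4 : e2 (4 : O) = 4 := e2_ofNat 4
    rw [e2_add, e2_mul, e2_mul, e2_pow, e2_pow, e2_pow, h4] at this
    exact this
  have nP := nm_eq (fP a b c)
  have nM := nm_eq (fM a b c d)
  have nA := nm_eq a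
  have hq : (0 : ℝ) < nm (fP a b c) := by rw [nP]; positivity
  have hsm' : 4 * (nm (fP a b c) : ℝ) ^ 2 ≤ nm (fM a b c d) := by exact_mod_cast hsm
  refine ⟨p1, p2, hq, ?_, ?_, ?_, ?_⟩
  · have h1 : (2 * (nm (fP a b c) : ℝ)) ^ 2 ≤ (t ^ 4) ^ 2 := by
      calc (2 * (nm (fP a b c) : ℝ)) ^ 2 = 4 * (nm (fP a b c) : ℝ) ^ 2 := by ring
        _ ≤ t ^ 8 := hsm'.trans hle
        _ = _ := by ring
    have h2 := le_of_sq_le_sq h1 (by positivity)
    linarith
  · have j1 : e1 a ^ 2 * e1 (fM a b c d) ≤ 4 * e1 (fP a b c) ^ 3 := by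
      have := sq_nonneg (e1 (fX a b c d)); linarith
    have j2 : e2 a ^ 2 * e2 (fM a b c d) ≤ 4 * e2 (fP a b c) ^ 3 := by
      have := sq_nonneg (e2 (fX a b c d)); linarith
    have j3 := mul_le_mul j1 j2 (by positivity) (by positivity)
    have j4 : (nm a : ℝ) ^ 2 * nm (fM a b c d) ≤ 16 * (nm (fP a b c) : ℝ) ^ 3 := by
      rw [nA, nM, nP]
      calc _ = e1 a ^ 2 * e1 (fM a b c d) * (e2 a ^ 2 * e2 (fM a b c d)) := by ring
        _ ≤ _ := j3
        _ = _ := by ring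
    have j5 : (nm a : ℝ) ^ 2 * (4 * (nm (fP a b c) : ℝ) ^ 2) ≤ 16 * (nm (fP a b c) : ℝ) ^ 3 :=
      (mul_le_mul_of_nonneg_left hsm' (sq_nonneg _)).trans j4
    have j6 : (4 * (nm (fP a b c) : ℝ) ^ 2) * (nm a : ℝ) ^ 2 ≤
        (4 * (nm (fP a b c) : ℝ) ^ 2) * (4 * nm (fP a b c)) := by nlinarith
    exact le_of_mul_le_mul_left j6 (by positivity)
  · rw [nP]
    nlinarith [hb.2.2.1]
  · rw [nP]
    nlinarith [hb.2.2.2]

/-- the number of `c` with small `P` -/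
theorem count_c (hb : BoxStmt) {t : ℝ} (ht : 1 ≤ t) {a b : O} (ha : a ≠ 0) {x : ℝ}
    (hx' : 0 ≤ x) : {c : O | (∃ d, Nrm (t ^ 8) (a, b, c, d)) ∧ (nm (fP a b c) : ℝ) ≤ x}.Finite ∧
    ({c : O | (∃ d, Nrm (t ^ 8) (a, b, c, d)) ∧ (nm (fP a b c) : ℝ) ≤ x}.ncard : ℝ) ≤
      15 * x / |(nm a : ℝ)| := by
  obtain ⟨S, hS⟩ : ∃ S, S = {c : O | (∃ d, Nrm (t ^ 8) (a, b, c, d)) ∧ (nm (fP a b c) : ℝ) ≤ x} :=
    ⟨_, rfl⟩
  rw [← hS]
  have hA1 : (1 : ℝ) ≤ |(nm a : ℝ)| := by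
    have := one_le_abs_nm ha
    exact_mod_cast this
  rcases S.eq_empty_or_nonempty with h0 | ⟨c0, hc0⟩
  · rw [h0]
    refine ⟨Set.finite_empty, ?_⟩
    rw [Set.ncard_empty]
    simp only [Nat.cast_zero]
    positivity
  · rw [hS] at hc0
    obtain ⟨⟨d0, hd0⟩, hx0⟩ := hc0
    obtain ⟨f1, f2, f3, f4, f5, f6, f7⟩ := facts ht hd0
    have hx : 0 < x := f3.trans_le hx0
    have ha1 := e1_ne_zero ha
    have ha2 := e2_ne_zero ha
    obtain ⟨R, hR⟩ : ∃ R, R = g * Real.sqrt x := ⟨_, rfl⟩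
    have hg0 : 0 < g := Real.goldenRatio_pos
    have hR0 : 0 ≤ R := by rw [hR]; positivity
    have hR2 : R ^ 2 = g ^ 2 * x := by rw [hR, mul_pow, Real.sq_sqrt hx.le]
    have hbx := hb (e1 b ^ 2 / e1 a - R / |e1 a|) (e2 b ^ 2 / e2 a - R / |e2 a|) (2 * (R / |e1 a|))
      (2 * (R / |e2 a|)) (by positivity) (by positivity)
    have hsub : S ⊆ {x : O | e1 b ^ 2 / e1 a - R / |e1 a| ≤ e1 x ∧
        e1 x ≤ e1 b ^ 2 / e1 a - R / |e1 a| + 2 * (R / |e1 a|) ∧
        e2 b ^ 2 / e2 a - R / |e2 a| ≤ e2 x ∧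
        e2 x ≤ e2 b ^ 2 / e2 a - R / |e2 a| + 2 * (R / |e2 a|)} := by
      intro c hc
      rw [hS] at hc
      obtain ⟨⟨d, hd⟩, hxc⟩ := hc
      obtain ⟨k1, k2, k3, k4, k5, k6, k7⟩ := facts ht hd
      have l1 : e1 (fP a b c) ≤ R := by
        apply le_of_sq_le_sq _ hR0
        rw [hR2]
        exact k6.trans (mul_le_mul_of_nonneg_left hxc (by positivity))
      have l2 : e2 (fP a b c) ≤ R := by
        apply le_of_sq_le_sq _ hR0
        rw [hR2]
        exact k7.trans (mul_le_mul_of_nonneg_left hxc (by positivity))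
      have m1 : e1 (fP a b c) = e1 b ^ 2 - e1 a * e1 c := by
        unfold fP; rw [e1_sub, e1_pow, e1_mul]
      have m2 : e2 (fP a b c) = e2 b ^ 2 - e2 a * e2 c := by
        unfold fP; rw [e2_sub, e2_pow, e2_mul]
      have n1 : |e1 c - e1 b ^ 2 / e1 a| ≤ R / |e1 a| := by
        have : e1 c - e1 b ^ 2 / e1 a = -(e1 (fP a b c)) / e1 a := by
          rw [m1]; field_simp; ring
        rw [this, abs_div, abs_neg, abs_of_pos k1]
        exact div_le_div_of_nonneg_right l1 (abs_nonneg _)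
      have n2 : |e2 c - e2 b ^ 2 / e2 a| ≤ R / |e2 a| := by
        have : e2 c - e2 b ^ 2 / e2 a = -(e2 (fP a b c)) / e2 a := by
          rw [m2]; field_simp; ring
        rw [this, abs_div, abs_neg, abs_of_pos k2]
        exact div_le_div_of_nonneg_right l2 (abs_nonneg _)
      have o1 := abs_le.mp n1
      have o2 := abs_le.mp n2
      exact ⟨by linarith, by linarith, by linarith, by linarith⟩
    refine ⟨hbx.1.subset hsub, ?_⟩
    have hcard : (S.ncard : ℝ) ≤ 2 * (R / |e1 a|) * (2 * (R / |e2 a|)) + 1 := by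
      refine le_trans ?_ hbx.2
      exact_mod_cast Set.ncard_le_ncard hsub hbx.1
    refine hcard.trans ?_
    have hAe : |(nm a : ℝ)| = |e1 a| * |e2 a| := by rw [nm_eq, abs_mul]
    have q1 : 2 * (R / |e1 a|) * (2 * (R / |e2 a|)) = 4 * (g ^ 2 * x) / |(nm a : ℝ)| := by
      rw [hAe, ← hR2]
      have : |e1 a| ≠ 0 := abs_ne_zero.mpr ha1
      have : |e2 a| ≠ 0 := abs_ne_zero.mpr ha2
      field_simp
      ring
    have q2 : (1 : ℝ) ≤ 4 * x / |(nm a : ℝ)| := by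
      rw [le_div_iff₀ (by linarith), one_mul]
      have : |(nm a : ℝ)| * |(nm a : ℝ)| ≤ 4 * x := by
        rw [abs_mul_abs_self]; nlinarith
      nlinarith
    have q3 : g ^ 2 ≤ 2.7 := by
      have h1 : g ^ 2 = g + 1 := Real.goldenRatio_sq
      have h2 : g < 1.7 := by
        have := h1
        nlinarith
      rw [h1]; linarith
    calc 2 * (R / |e1 a|) * (2 * (R / |e2 a|)) + 1 ≤
          4 * (g ^ 2 * x) / |(nm a : ℝ)| + 4 * x / |(nm a : ℝ)| := by rw [q1]; linarith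
      _ = (4 * g ^ 2 + 4) * x / |(nm a : ℝ)| := by ring
      _ ≤ 15 * x / |(nm a : ℝ)| := by
          apply div_le_div_of_nonneg_right _ (abs_nonneg _)
          nlinarith

theorem cuc (hb : BoxStmt) (hd : CudStmt) : CucStmt := by
  obtain ⟨C, hC0, hC⟩ := hd
  refine ⟨22 * C, by positivity, fun t a b ht ha => ?_⟩
  classical
  have hA1 : (1 : ℝ) ≤ |(nm a : ℝ)| := by
    have := one_le_abs_nm ha
    exact_mod_cast this
  obtain ⟨A, hA⟩ : ∃ A, A = |(nm a : ℝ)| := ⟨_, rfl⟩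
  have ht0 : 0 < t := by linarith
  obtain ⟨hf, hn⟩ := count_c hb ht ha (x := t ^ 4 / 2) (b := b) (by positivity)
  obtain ⟨T, hT⟩ : ∃ T, T = hf.toFinset := ⟨_, rfl⟩
  have hmem : ∀ c, c ∈ T ↔ ∃ d, Nrm (t ^ 8) (a, b, c, d) := by
    intro c
    rw [hT, Set.Finite.mem_toFinset]
    constructor
    · rintro ⟨h, -⟩
      exact h
    · rintro ⟨d, hd⟩
      exact ⟨⟨d, hd⟩, (facts ht hd).2.2.2.1⟩
  have hTc : (T.card : ℝ) ≤ 15 * (t ^ 4 / 2) / A := by
    rw [hT, ← Set.ncard_eq_toFinset_card _ hf, hA]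
    exact hn
  have hDf : ∀ c : O, {d : O | Nrm (t ^ 8) (a, b, c, d)}.Finite := fun c => (hC t a b c ht).1
  have hset : {w : O × O | Nrm (t ^ 8) (a, b, w.1, w.2)} =
      ((T.biUnion fun c => (hDf c).toFinset.image (fun d => (c, d)) : Finset (O × O)) :
        Set (O × O)) := by
    ext ⟨c, d⟩
    simp only [Set.mem_ofPred_eq, Finset.coe_biUnion, Set.mem_iUnion, Finset.coe_image,
      Set.mem_image, Set.Finite.coe_toFinset, Prod.mk.injEq, Finset.mem_coe, exists_prop]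
    constructor
    · intro h
      exact ⟨c, (hmem c).mpr ⟨d, h⟩, d, h, rfl, rfl⟩
    · rintro ⟨c', -, d', h, rfl, rfl⟩
      exact h
  refine ⟨by rw [hset]; exact Finset.finite_toSet _, ?_⟩
  rw [hset, Set.ncard_coe_finset]
  have h1 : ((T.biUnion fun c => (hDf c).toFinset.image (fun d => (c, d))).card : ℝ) ≤
      ∑ c ∈ T, C * (t ^ (16 / 3 : ℝ) * A ^ (-(2 / 3) : ℝ) *
        |(nm (fP a b c) : ℝ)| ^ (-(1 / 2) : ℝ) + 1) := by
    have h2 : ((T.biUnion fun c => (hDf c).toFinset.image (fun d => (c, d))).card : ℝ) ≤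
        ((∑ c ∈ T, ((hDf c).toFinset.image (fun d => (c, d))).card : ℕ) : ℝ) := by
      exact_mod_cast Finset.card_biUnion_le
    refine h2.trans ?_
    rw [Nat.cast_sum]
    apply Finset.sum_le_sum
    intro c _
    have h3 : ((hDf c).toFinset.image (fun d => (c, d))).card ≤ (hDf c).toFinset.card :=
      Finset.card_image_le
    have h4 : ((hDf c).toFinset.card : ℝ) ≤ C * (t ^ (16 / 3 : ℝ) * A ^ (-(2 / 3) : ℝ) *
        |(nm (fP a b c) : ℝ)| ^ (-(1 / 2) : ℝ) + 1) := by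
      rw [← Set.ncard_eq_toFinset_card _ (hDf c), hA]
      exact (hC t a b c ht).2
    exact le_trans (by exact_mod_cast h3) h4
  refine h1.trans ?_
  rw [← Finset.mul_sum, Finset.sum_add_distrib, ← Finset.mul_sum, Finset.sum_const, nsmul_eq_mul,
    mul_one]
  have hA0 : 0 < A := by rw [hA]; linarith
  -- the sum of the inverse roots
  have h5 : ∑ c ∈ T, |(nm (fP a b c) : ℝ)| ^ (-(1 / 2) : ℝ) ≤ 2 * Real.sqrt (15 / A * T.card) := by
    have h6 := layer (fun c => |(nm (fP a b c) : ℝ)|) (15 / A) (by positivity) T.card T rfl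
      (fun c hc => by
        obtain ⟨d, hd⟩ := (hmem c).mp hc
        exact abs_pos.mpr (facts ht hd).2.2.1.ne')
      (fun c0 hc0 => by
        obtain ⟨d0, hd0⟩ := (hmem c0).mp hc0
        have hp := (facts ht hd0).2.2.1
        rw [abs_of_pos hp]
        obtain ⟨hf', hn'⟩ := count_c hb ht ha (x := nm (fP a b c0)) (b := b) hp.le
        have hsub : (T.filter (fun c => |(nm (fP a b c) : ℝ)| ≤ nm (fP a b c0))) ⊆ hf'.toFinset := by
          intro c hc
          rw [Finset.mem_filter] at hc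
          rw [Set.Finite.mem_toFinset]
          exact ⟨(hmem c).mp hc.1, (le_abs_self _).trans hc.2⟩
        have h7 := Finset.card_le_card hsub
        rw [← Set.ncard_eq_toFinset_card _ hf'] at h7
        calc ((T.filter (fun c => |(nm (fP a b c) : ℝ)| ≤ nm (fP a b c0))).card : ℝ) ≤ _ := by
              exact_mod_cast h7
          _ ≤ 15 * (nm (fP a b c0) : ℝ) / |(nm a : ℝ)| := hn'
          _ = 15 / A * (nm (fP a b c0) : ℝ) := by rw [hA]; ring)
    exact h6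
  have h8 : Real.sqrt (15 / A * T.card) ≤ 11 * t ^ 2 / A := by
    apply Real.sqrt_le_iff.mpr
    refine ⟨by positivity, ?_⟩
    calc 15 / A * (T.card : ℝ) ≤ 15 / A * (15 * (t ^ 4 / 2) / A) :=
          mul_le_mul_of_nonneg_left hTc (by positivity)
      _ = (225 / 2) * (t ^ 4 / A ^ 2) := by field_simp; norm_num
      _ ≤ 121 * (t ^ 4 / A ^ 2) := mul_le_mul_of_nonneg_right (by norm_num) (by positivity)
      _ = (11 * t ^ 2 / A) ^ 2 := by field_simp; ring
  have r1 : t ^ (16 / 3 : ℝ) * t ^ 2 = t ^ (22 / 3 : ℝ) := by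
    rw [← Real.rpow_natCast t 2, ← Real.rpow_add ht0]
    norm_num
  have r2 : A ^ (-(2 / 3) : ℝ) * A⁻¹ = A ^ (-(5 / 3) : ℝ) := by
    rw [← Real.rpow_neg_one A, ← Real.rpow_add hA0]
    norm_num
  rw [← hA]
  have h9 : t ^ (16 / 3 : ℝ) * A ^ (-(2 / 3) : ℝ) *
      ∑ c ∈ T, |(nm (fP a b c) : ℝ)| ^ (-(1 / 2) : ℝ) ≤
      22 * (t ^ (22 / 3 : ℝ) * A ^ (-(5 / 3) : ℝ)) := by
    calc _ ≤ t ^ (16 / 3 : ℝ) * A ^ (-(2 / 3) : ℝ) * (2 * (11 * t ^ 2 / A)) := by
          apply mul_le_mul_of_nonneg_left _ (by positivity)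
          linarith
      _ = 22 * ((t ^ (16 / 3 : ℝ) * t ^ 2) * (A ^ (-(2 / 3) : ℝ) * A⁻¹)) := by ring
      _ = _ := by rw [r1, r2]
  have h10 : (T.card : ℝ) ≤ 22 * (t ^ 4 / A) := by
    calc (T.card : ℝ) ≤ 15 * (t ^ 4 / 2) / A := hTc
      _ = (15 / 2) * (t ^ 4 / A) := by ring
      _ ≤ _ := mul_le_mul_of_nonneg_right (by norm_num) (by positivity)
  calc C * (t ^ (16 / 3 : ℝ) * A ^ (-(2 / 3) : ℝ) *
        ∑ c ∈ T, |(nm (fP a b c) : ℝ)| ^ (-(1 / 2) : ℝ) + T.card) ≤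
        C * (22 * (t ^ (22 / 3 : ℝ) * A ^ (-(5 / 3) : ℝ)) + 22 * (t ^ 4 / A)) :=
        mul_le_mul_of_nonneg_left (add_le_add h9 h10) hC0.le
    _ = _ := by ring

end Pool.Agent.Leo4.H39
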