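import Pool.Agent.Helper68_Leo4.Basic
import Pool.Agent.Helper60_Leo3.Tools

/-!
# Module OKR of PAPER_LEO4: `O = ℤ[φ]` is Euclidean and the ring of integers of `ℚ(√5)`
-/

set_option autoImplicit false

open NumberField IsDedekindDomain Module Filter Topology
open Pool.Agent.Leo4

namespace Pool.Agent.Leo4.H39

/-- nearest integer -/
theorem round_int (c n : ℤ) (hn : n ≠ 0) : ∃ q : ℤ, 2 * |c - n * q| ≤ |n| := by
  have h1 := Int.emod_nonneg c hn
  have h2 := Int.emod_lt_abs c hn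
  have h3 := Int.emod_add_mul_ediv c n
  by_cases h : 2 * (c % n) ≤ |n|
  · refine ⟨c / n, ?_⟩
    have e : c - n * (c / n) = c % n := by linarith
    rw [e, abs_of_nonneg h1]
    exact h
  · push Not at h
    refine ⟨c / n + n.sign, ?_⟩
    have e : c - n * (c / n + n.sign) = c % n - |n| := by
      have : n * n.sign = |n| := Int.mul_sign_self n ▸ (by rw [Int.abs_eq_natAbs])
      rw [mul_add, this]
      linarith
    rw [e, abs_of_nonpos (by linarith)]
    linarith

theorem nm_small (r : O) (n : ℤ) (h1 : 2 * |r.re| ≤ |n|) (h2 : 2 * |r.im| ≤ |n|) :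
    2 * |nm r| ≤ n ^ 2 := by
  have e1 : 4 * r.re ^ 2 ≤ n ^ 2 := by
    have := mul_self_le_mul_self (by positivity) h1
    nlinarith [sq_abs r.re, sq_abs n]
  have e2 : 4 * r.im ^ 2 ≤ n ^ 2 := by
    have := mul_self_le_mul_self (by positivity) h2
    nlinarith [sq_abs r.im, sq_abs n]
  have e3 : 4 * |r.re * r.im| ≤ n ^ 2 := by
    rw [abs_mul]
    have := mul_le_mul h1 h2 (by positivity) (abs_nonneg n)
    nlinarith [sq_abs n]
  have e4 := abs_le.mp (le_refl |r.re * r.im|)
  unfold nm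
  have e5 : |r.re ^ 2 + r.re * r.im - r.im ^ 2| * 2 ≤ n ^ 2 := by
    rcases abs_cases (r.re ^ 2 + r.re * r.im - r.im ^ 2) with h | h
    · rw [h.1]
      nlinarith [sq_nonneg r.im, e4.2]
    · rw [h.1]
      nlinarith [sq_nonneg r.re, e4.1]
  linarith

theorem euclid (a b : O) (hb : b ≠ 0) : ∃ q : O, |nm (a - b * q)| < |nm b| := by
  have hn := nm_ne_zero hb
  obtain ⟨q1, hq1⟩ := round_int (a * star b).re (nm b) hn
  obtain ⟨q2, hq2⟩ := round_int (a * star b).im (nm b) hn
  refine ⟨⟨q1, q2⟩, ?_⟩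
  have e1 : (a - b * ⟨q1, q2⟩) * star b = a * star b - ((nm b : ℤ) : O) * ⟨q1, q2⟩ := by
    rw [← mul_star_eq b]
    ring
  have e2 : (a * star b - ((nm b : ℤ) : O) * ⟨q1, q2⟩).re = (a * star b).re - nm b * q1 := by
    simp [QuadraticAlgebra.re_sub, QuadraticAlgebra.re_mul]
  have e3 : (a * star b - ((nm b : ℤ) : O) * ⟨q1, q2⟩).im = (a * star b).im - nm b * q2 := by
    simp [QuadraticAlgebra.im_sub, QuadraticAlgebra.im_mul]
  have e4 := nm_small ((a - b * ⟨q1, q2⟩) * star b) (nm b) (by rw [e1, e2]; exact hq1)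
    (by rw [e1, e3]; exact hq2)
  rw [nm_mul, nm_star, abs_mul] at e4
  have hpos : 0 < |nm b| := abs_pos.mpr hn
  have e5 : 2 * (|nm (a - b * ⟨q1, q2⟩)| * |nm b|) ≤ |nm b| * |nm b| := by
    rw [abs_mul_abs_self]; nlinarith
  nlinarith [abs_nonneg (nm (a - b * ⟨q1, q2⟩))]

theorem pid : IsPrincipalIdealRing O := by
  constructor
  intro I
  by_cases hI : I = ⊥
  · exact ⟨⟨0, by rw [hI]; simp⟩⟩
  · obtain ⟨x, hx, hx0⟩ := Submodule.exists_mem_ne_zero_of_ne_bot hI
    obtain ⟨b, ⟨hb, hb0⟩, hmin⟩ := (measure (fun x : O => (nm x).natAbs)).wf.has_min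
      {x : O | x ∈ I ∧ x ≠ 0} ⟨x, hx, hx0⟩
    refine ⟨⟨b, ?_⟩⟩
    apply le_antisymm
    · intro a ha
      obtain ⟨q, hq⟩ := euclid a b hb0
      rw [Ideal.submodule_span_eq, Ideal.mem_span_singleton]
      by_cases h : a - b * q = 0
      · exact ⟨q, sub_eq_zero.mp h⟩
      · exfalso
        apply hmin (a - b * q) ⟨I.sub_mem ha (I.mul_mem_right _ hb), h⟩
        show (nm (a - b * q)).natAbs < (nm b).natAbs
        have h1 : ((nm (a - b * q)).natAbs : ℤ) < ((nm b).natAbs : ℤ) := by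
          rw [Int.natCast_natAbs, Int.natCast_natAbs]
          exact hq
        exact_mod_cast h1
    · rw [Ideal.submodule_span_eq, Ideal.span_singleton_le_iff_mem]
      exact hb

theorem dvd_of (n : ℤ) (x : O) (h1 : n ∣ x.re) (h2 : n ∣ x.im) : ((n : ℤ) : O) ∣ x := by
  obtain ⟨u, hu⟩ := h1
  obtain ⟨v, hv⟩ := h2
  refine ⟨⟨u, v⟩, ?_⟩
  ext
  · simp [QuadraticAlgebra.re_mul, hu]
  · simp [QuadraticAlgebra.im_mul, hv]

theorem prime_of (p : ℕ) (hp : p.Prime)
    (h : ∀ x y : ZMod p, x ^ 2 + x * y - y ^ 2 = 0 → x = 0 ∧ y = 0) : Prime ((p : ℤ) : O) := by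
  have hpz : Prime (p : ℤ) := Nat.prime_iff_prime_int.mp hp
  have key : ∀ x : O, (p : ℤ) ∣ nm x → ((p : ℤ) : O) ∣ x := by
    intro x hx
    have h1 : ((nm x : ℤ) : ZMod p) = 0 := (ZMod.intCast_zmod_eq_zero_iff_dvd _ _).mpr hx
    unfold nm at h1
    push_cast at h1
    obtain ⟨h2, h3⟩ := h _ _ h1
    exact dvd_of p x ((ZMod.intCast_zmod_eq_zero_iff_dvd _ _).mp h2)
      ((ZMod.intCast_zmod_eq_zero_iff_dvd _ _).mp h3)
  have hnm : nm ((p : ℤ) : O) = (p : ℤ) ^ 2 := nm_intCast p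
  refine ⟨?_, ?_, ?_⟩
  · intro h0
    have := congrArg nm h0
    rw [hnm, nm_zero] at this
    exact hpz.ne_zero (pow_eq_zero_iff (two_ne_zero) |>.mp this)
  · intro hu
    rw [isUnit_iff_nm, hnm] at hu
    have h2 : (2 : ℤ) ≤ p := by exact_mod_cast hp.two_le
    rcases hu with hu | hu <;> nlinarith
  · intro a b hab
    obtain ⟨c, hc⟩ := hab
    have h1 : (p : ℤ) ∣ nm a * nm b := by
      rw [← nm_mul, hc, nm_mul, hnm]
      exact Dvd.dvd.mul_right (dvd_pow_self _ (by norm_num)) _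
    rcases hpz.dvd_or_dvd h1 with h2 | h2
    · exact Or.inl (key a h2)
    · exact Or.inr (key b h2)

theorem prime_two : Prime (2 : O) := by
  have := prime_of 2 Nat.prime_two (by decide)
  simpa using this

theorem prime_three : Prime (3 : O) := by
  have := prime_of 3 Nat.prime_three (by decide)
  simpa using this

theorem integral {k : Type} [Field k] [NumberField k] {f : k} (hk : finrank ℚ k = 2)
    (hf : f ^ 2 = f + 1) {x : k} (hx : IsIntegral ℤ x) : ∃ y : O, x = ev f y := by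
  have hirr : ∀ q : ℚ, (q : k) ≠ f := by
    intro q hq
    have h1 : (q : k) ^ 2 = q + 1 := by rw [hq]; exact hf
    have h2 : q ^ 2 = q + 1 := by exact_mod_cast h1
    have h3 : (2 * q - 1) ^ 2 = 5 := by linear_combination 4 * h2
    have h4 : Irrational (Real.sqrt (5 : ℕ)) := Nat.Prime.irrational_sqrt (by norm_num)
    apply h4
    refine ⟨|2 * q - 1|, ?_⟩
    have h5 : ((|2 * q - 1| : ℚ) : ℝ) = |2 * (q : ℝ) - 1| := by push_cast; rfl
    rw [h5, ← Real.sqrt_sq_eq_abs]
    congr 1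
    exact_mod_cast h3
  obtain ⟨s, t, hst⟩ := Pool.Agent.Leo3.H60.quad_span hk hirr x
  by_cases ht : t = 0
  · rw [ht] at hst
    have h1 : x = algebraMap ℚ k s := by rw [hst]; simp
    rw [h1, isIntegral_algebraMap_iff (algebraMap ℚ k).injective] at hx
    obtain ⟨j, hj⟩ := IsIntegrallyClosed.isIntegral_iff.mp hx
    refine ⟨⟨j, 0⟩, ?_⟩
    rw [h1, ← hj]
    simp [ev]
  · -- the minimal polynomial
    have hxr : ∀ q : ℚ, algebraMap ℚ k q ≠ x := by
      intro q hq
      apply hirr ((q - s) / t)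
      have htk : (t : k) ≠ 0 := by exact_mod_cast ht
      have hq' : (q : k) = x := hq
      push_cast
      rw [hq', hst]
      field_simp
      ring
    obtain ⟨T, hT⟩ : ∃ T : ℚ, T = 2 * s + t := ⟨_, rfl⟩
    obtain ⟨n, hn⟩ : ∃ n : ℚ, n = s ^ 2 + s * t - t ^ 2 := ⟨_, rfl⟩
    have hquad : x ^ 2 - T * x + n = 0 := by
      rw [hst, hT, hn]
      push_cast
      linear_combination (t : k) ^ 2 * hf
    let p : Polynomial ℚ := Polynomial.X ^ 2 - Polynomial.C T * Polynomial.X + Polynomial.C n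
    have hpq : p = Polynomial.C 1 * Polynomial.X ^ 2 + Polynomial.C (-T) * Polynomial.X +
        Polynomial.C n := by
      simp only [p, map_neg, map_one]
      ring
    have hpd : p.natDegree = 2 := by
      rw [hpq]
      exact Polynomial.natDegree_quadratic one_ne_zero
    have hpm : p.Monic := by
      unfold Polynomial.Monic
      rw [hpq]
      exact Polynomial.leadingCoeff_quadratic one_ne_zero
    have hp0 : Polynomial.aeval x p = 0 := by
      simp only [p, map_add, map_sub, map_mul, map_pow, Polynomial.aeval_X, Polynomial.aeval_C]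
      exact hquad
    have hxq : IsIntegral ℚ x := hx.tower_top
    have hdvd : minpoly ℚ x ∣ p := minpoly.dvd ℚ x hp0
    have hle := Polynomial.natDegree_le_of_dvd hdvd hpm.ne_zero
    have hne1 : (minpoly ℚ x).natDegree ≠ 1 := by
      intro h1
      rw [minpoly.natDegree_eq_one_iff] at h1
      obtain ⟨q, hq⟩ := h1
      exact hxr q hq
    have hpos := minpoly.natDegree_pos hxq
    have heq : minpoly ℚ x = p :=
      (Polynomial.eq_of_monic_of_dvd_of_natDegree_le (minpoly.monic hxq) hpm hdvd (by omega)).symm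
    have hmap : p = (minpoly ℤ x).map (algebraMap ℤ ℚ) := by
      rw [← heq]
      exact minpoly.isIntegrallyClosed_eq_field_fractions' ℚ hx
    have hc1 : -T = ((minpoly ℤ x).coeff 1 : ℚ) := by
      have := congrArg (fun r => Polynomial.coeff r 1) hmap
      simp only [Polynomial.coeff_map] at this
      rw [hpq] at this
      simpa using this
    have hc0 : n = ((minpoly ℤ x).coeff 0 : ℚ) := by
      have := congrArg (fun r => Polynomial.coeff r 0) hmap
      simp only [Polynomial.coeff_map] at this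
      rw [hpq] at this
      simpa using this
    obtain ⟨A, hA⟩ : ∃ A : ℤ, A = -(minpoly ℤ x).coeff 1 := ⟨_, rfl⟩
    obtain ⟨B, hB⟩ : ∃ B : ℤ, B = (minpoly ℤ x).coeff 0 := ⟨_, rfl⟩
    have hTA : T = A := by rw [hA]; push_cast; linarith
    have hnB : n = B := by rw [hB]; exact hc0
    have h5 : 5 * t ^ 2 = ((A ^ 2 - 4 * B : ℤ) : ℚ) := by
      push_cast
      rw [← hTA, ← hnB, hT, hn]
      ring
    have hint : IsIntegral ℤ (5 * t : ℚ) := by
      refine ⟨Polynomial.X ^ 2 - Polynomial.C (5 * (A ^ 2 - 4 * B)),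
        Polynomial.monic_X_pow_sub_C _ (by norm_num), ?_⟩
      simp only [Polynomial.eval₂_sub, Polynomial.eval₂_X_pow, Polynomial.eval₂_C]
      have : ((algebraMap ℤ ℚ) (5 * (A ^ 2 - 4 * B)) : ℚ) = 5 * (5 * t ^ 2) := by
        rw [h5]
        simp
      rw [this]
      ring
    obtain ⟨j, hj⟩ := IsIntegrallyClosed.isIntegral_iff.mp hint
    have hj' : (j : ℚ) = 5 * t := hj
    have hj2 : j ^ 2 = 5 * (A ^ 2 - 4 * B) := by
      have : ((j ^ 2 : ℤ) : ℚ) = ((5 * (A ^ 2 - 4 * B) : ℤ) : ℚ) := by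
        rw [Int.cast_mul, ← h5]
        push_cast
        rw [hj']
        ring
      exact_mod_cast this
    have h5p : Prime (5 : ℤ) := by norm_num
    have hdj : (5 : ℤ) ∣ j := h5p.dvd_of_dvd_pow (n := 2) ⟨_, hj2⟩
    obtain ⟨u, hu⟩ := hdj
    have htu : t = u := by
      have : (5 : ℚ) * t = 5 * u := by rw [← hj', hu]; push_cast; rfl
      linarith
    have hAu : A ^ 2 - 5 * u ^ 2 = 4 * B := by
      have : ((A ^ 2 - 5 * u ^ 2 : ℤ) : ℚ) = ((4 * B : ℤ) : ℚ) := by
        push_cast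
        rw [← hTA, ← htu, ← hnB, hT, hn]
        ring
      exact_mod_cast this
    have hpar : (2 : ℤ) ∣ A - u := by
      have e1 : (2 : ℤ) ∣ (A - u) * (A + u) := ⟨2 * B + 2 * u ^ 2, by linear_combination hAu⟩
      rcases Int.prime_two.dvd_or_dvd e1 with h | h
      · exact h
      · obtain ⟨w, hw⟩ := h
        exact ⟨w - u, by linarith⟩
    obtain ⟨w, hw⟩ := hpar
    have hsw : s = w := by
      have : ((A - u : ℤ) : ℚ) = ((2 * w : ℤ) : ℚ) := by rw [hw]
      push_cast at this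
      rw [← hTA, ← htu, hT] at this
      linarith
    refine ⟨⟨w, u⟩, ?_⟩
    rw [hst, hsw, htu]
    simp [ev]

theorem okr : OkrStmt :=
  ⟨inferInstance, pid, prime_two, prime_three, euclid, nm_mul,
    fun x y => ⟨e1_mul x y, e2_mul x y⟩, nm_eq, fun _ => nm_eq_zero, fun _ => isUnit_iff_nm,
    fun _ _ _ _ hk hf _ hx => integral hk hf hx⟩

end Pool.Agent.Leo4.H39
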